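import Mathlib
import Pool.Agent.H10.Cheeg

set_option autoImplicit false

namespace Pool.Agent.Results.MP_302605_an.Minimizer
open Pool.Agent.H10.Cheeg

theorem result (N : ℕ) (hN : 0 < N) (Ω : Set (E N)) (hΩ : Bornology.IsBounded Ω) :
    ∃ K, Adm K ∧ ∀ L, Adm L → J Ω K ≤ J Ω L :=
  main hN hΩ

end Pool.Agent.Results.MP_302605_an.Minimizer
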